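import Pool.Agent.Y184.NT.StE
import Pool.Agent.H929R2.Kernel

/-!
Project NT (helper184): forms which vanish on an irreducible hypersurface.
-/

set_option autoImplicit false

open MvPolynomial Cardinal

namespace Pool.Agent.Y858.NT

/-- scaling of the variables -/
lemma aeval_scale {A : Type} [CommRing A] [Algebra ℂ A] {N d : ℕ} (F : MvPolynomial (Fin N) ℂ)
    (hF : F.IsHomogeneous d) (x : Fin N → A) (T : A) :
    aeval (fun j => x j * T) F = T ^ d * aeval x F := by
  rw [aeval_def, aeval_def, eval₂_eq, eval₂_eq, Finset.mul_sum]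
  refine Finset.sum_congr rfl fun s hs => ?_
  have h1 : ∑ i ∈ s.support, s i = d := by
    have := hF (mem_support_iff.1 hs)
    rw [Finsupp.weight_apply] at this
    simpa [Finsupp.sum] using this
  have h2 : ∏ i ∈ s.support, (x i * T) ^ s i = (∏ i ∈ s.support, x i ^ s i) * T ^ d := by
    simp only [mul_pow, Finset.prod_mul_distrib]
    rw [Finset.prod_pow_eq_pow_sum, h1]
  rw [h2]
  ring

/-- the transcendence degree of the rational functions -/
lemma trdeg_rat (K : Type) [Field K] [Algebra ℂ K] (n : ℕ) (hn : Algebra.trdeg ℂ K = n) :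
    ((n + 1 : ℕ) : Cardinal) ≤ Algebra.trdeg ℂ (RatFunc K) := by
  have h1 : Algebra.trdeg ℂ K + Algebra.trdeg K (RatFunc K) ≤ Algebra.trdeg ℂ (RatFunc K) :=
    trdeg_add_le
  have h2 : (1 : Cardinal) ≤ Algebra.trdeg K (RatFunc K) := by
    rw [← Polynomial.trdeg_of_isDomain (R := K)]
    exact trdeg_le_of_injective (IsScalarTower.toAlgHom K (Polynomial K) (RatFunc K))
      (RatFunc.algebraMap_injective K)
  rw [hn] at h1
  push_cast
  exact (add_le_add_right h2 _).trans h1

theorem irr : Pool.Agent.Y184.NT.StIrr := by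
  intro K _ _ n d m F G hn hirr hF hG x j0 hx0 hgen hFx hGx
  obtain ⟨z, hz⟩ : ∃ z : Fin (n + 2) → RatFunc K,
    z = fun j => algebraMap K (RatFunc K) (x j) * RatFunc.X := ⟨_, rfl⟩
  have hX0 : (RatFunc.X : RatFunc K) ≠ 0 := RatFunc.X_ne_zero
  have hval : ∀ (e : ℕ) (H : MvPolynomial (Fin (n + 2)) ℂ), H.IsHomogeneous e →
      aeval x H = 0 → aeval z H = 0 := by
    intro e H hH hHx
    rw [hz, aeval_scale H hH (fun j => algebraMap K (RatFunc K) (x j)) RatFunc.X]
    have h1 : aeval (fun j => algebraMap K (RatFunc K) (x j)) H =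
        algebraMap K (RatFunc K) (aeval x H) :=
      aeval_algebraMap_apply (RatFunc K) x H
    rw [h1, hHx, map_zero, mul_zero]
  have hFz := hval d F hF hFx
  have hGz := hval m G hG hGx
  -- the field generated by the `z j`
  have htop : IntermediateField.adjoin ℂ (Set.range z) = ⊤ := by
    obtain ⟨L, hL⟩ : ∃ L, L = IntermediateField.adjoin ℂ (Set.range z) := ⟨_, rfl⟩
    rw [← hL]
    have hzL : ∀ j, z j ∈ L := fun j => by
      rw [hL]
      exact IntermediateField.subset_adjoin _ _ ⟨j, rfl⟩
    have hx0' : algebraMap K (RatFunc K) (x j0) ≠ 0 := by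
      rwa [Ne, map_eq_zero]
    have hq : ∀ j, algebraMap K (RatFunc K) (x j / x j0) ∈ L := by
      intro j
      have : algebraMap K (RatFunc K) (x j / x j0) = z j / z j0 := by
        rw [hz, map_div₀]
        field_simp
      rw [this]
      exact L.div_mem (hzL j) (hzL j0)
    have hKL : ∀ a : K, algebraMap K (RatFunc K) a ∈ L := by
      intro a
      have h1 : IntermediateField.adjoin ℂ (Set.range fun j => x j / x j0) ≤
          L.comap (IsScalarTower.toAlgHom ℂ K (RatFunc K)) := by
        rw [IntermediateField.adjoin_le_iff]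
        rintro _ ⟨j, rfl⟩
        exact hq j
      rw [hgen] at h1
      exact h1 (IntermediateField.mem_top (x := a))
    have hXL : (RatFunc.X : RatFunc K) ∈ L := by
      have : (RatFunc.X : RatFunc K) = z j0 / algebraMap K (RatFunc K) (x j0) := by
        rw [hz]
        field_simp
      rw [this]
      exact L.div_mem (hzL j0) (hKL _)
    have hpL : ∀ p : Polynomial K, algebraMap (Polynomial K) (RatFunc K) p ∈ L := by
      intro p
      induction p using Polynomial.induction_on' with
      | add p q hp hq => rw [map_add]; exact L.add_mem hp hq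
      | monomial k a =>
        rw [← Polynomial.C_mul_X_pow_eq_monomial, map_mul, map_pow, RatFunc.algebraMap_X,
          RatFunc.algebraMap_C]
        exact L.mul_mem (hKL a) (L.pow_mem hXL k)
    rw [eq_top_iff]
    intro f _
    rw [← RatFunc.num_div_denom f]
    exact L.div_mem (hpL _) (hpL _)
  have halg : Algebra.IsAlgebraic (Algebra.adjoin ℂ (Set.range z)) (RatFunc K) := by
    refine ⟨fun f => ?_⟩
    have hf : f ∈ IntermediateField.adjoin ℂ (Set.range z) := by
      rw [htop]; exact IntermediateField.mem_top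
    obtain ⟨r, hr, s, hs, hrs⟩ := IntermediateField.mem_adjoin_iff_div.1 hf
    have h1 : IsAlgebraic (Algebra.adjoin ℂ (Set.range z)) r :=
      isAlgebraic_algebraMap (⟨r, hr⟩ : Algebra.adjoin ℂ (Set.range z))
    have h2 : IsAlgebraic (Algebra.adjoin ℂ (Set.range z)) s :=
      isAlgebraic_algebraMap (⟨s, hs⟩ : Algebra.adjoin ℂ (Set.range z))
    rw [hrs, div_eq_mul_inv]
    exact h1.mul h2.inv
  obtain ⟨t, hts, ht⟩ := exists_isTranscendenceBasis_subset (R := ℂ) (Set.range z)
  have hcard : ((n + 1 : ℕ) : Cardinal) ≤ #t := by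
    rw [ht.cardinalMk_eq_trdeg]
    exact trdeg_rat K n hn
  obtain ⟨f⟩ : Nonempty (Fin (n + 1) ↪ t) := by
    rw [← Cardinal.le_def, Cardinal.mk_fin]
    exact hcard
  choose g hg using fun j : Fin (n + 1) => hts (f j).2
  have hginj : Function.Injective g := by
    intro i j hij
    apply f.injective
    apply Subtype.ext
    rw [← hg i, ← hg j, hij]
  have hind : AlgebraicIndependent ℂ (fun j : Fin (n + 1) => z (g j)) := by
    have h1 := ht.1.comp f f.injective
    have h2 : (fun j : Fin (n + 1) => z (g j)) = (Subtype.val : t → RatFunc K) ∘ f := by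
      funext j
      exact hg j
    rw [h2]
    exact h1
  obtain ⟨l, hl⟩ : ∃ l, l ∉ Set.range g := by
    by_contra hcon
    push Not at hcon
    have h1 : Function.Surjective g := fun l => hcon l
    have := Fintype.card_le_of_surjective g h1
    simp at this
  have hcinj : Function.Injective (Fin.cons l g : Fin (n + 2) → Fin (n + 2)) :=
    Fin.cons_injective_iff.2 ⟨hl, hginj⟩
  obtain ⟨σ, hσ⟩ : ∃ σ : Fin (n + 2) ≃ Fin (n + 2), ∀ i, σ i = (Fin.cons l g :
      Fin (n + 2) → Fin (n + 2)) i :=
    ⟨Equiv.ofBijective _ (Finite.injective_iff_bijective.1 hcinj), fun i => rfl⟩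
  obtain ⟨ρ, hρ⟩ : ∃ ρ : MvPolynomial (Fin (n + 2)) ℂ ≃ₐ[ℂ] MvPolynomial (Fin (n + 2)) ℂ,
    ρ = renameEquiv ℂ σ.symm := ⟨_, rfl⟩
  have hvalρ : ∀ H : MvPolynomial (Fin (n + 2)) ℂ, aeval (fun i => z (σ i)) (ρ H) =
      aeval z H := by
    intro H
    rw [hρ, renameEquiv_apply, aeval_rename]
    congr 2
    funext i
    simp
  have h1 : ρ F ∣ ρ G := by
    refine Pool.Agent.H929R2.dvd_of_aeval_eq_zero (ρ F) ((MulEquiv.irreducible_iff ρ).mpr hirr)
      (fun i => z (σ i)) ?_ ?_ (ρ G) ?_
    · rw [hvalρ, hFz]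
    · have h3 : (fun j : Fin (n + 1) => z (σ j.succ)) = fun j => z (g j) := by
        funext j
        rw [hσ, Fin.cons_succ]
      rw [h3]
      exact hind
    · rw [hvalρ, hGz]
  have h2 := map_dvd ρ.symm h1
  rwa [AlgEquiv.symm_apply_apply, AlgEquiv.symm_apply_apply] at h2

end Pool.Agent.Y858.NT
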